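import Pool.Agent.H21.CRZ.DIb

/-!
# The diagonal term (row DI of the board `crz_modules`)
-/

set_option autoImplicit false

open NumberField NumberField.InfinitePlace Complex Filter Topology MeasureTheory

namespace Pool.Agent.H21.CRZ

open Pool.Agent.H28.RC Pool.Agent.H25.HK Pool.Agent.H37.CV Pool.Agent.H65.CRZ
open Pool.Agent.H94.CV.F1 (nm_top pf_top one_le_nS mem_DM xw_le)

theorem Xf_le {CG BG : ℝ} (hCG : 0 < CG) (hBG : 0 ≤ BG)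
    (hG : ∀ (α β : ℂ) (u : ℝ), ‖α‖ ≤ 1 / 16 → ‖β‖ ≤ 1 / 16 →
    ‖Gamma (1 - (1 / 2 + α + u * I)) * Gamma (1 - (1 / 2 + β - u * I)) /
      (Gamma (1 / 2 + α + u * I) * Gamma (1 / 2 + β - u * I)) - 1‖ ≤
        CG * (‖α‖ + ‖β‖) * (1 + |u|) ^ BG) {A l : ℝ} (hA : 0 < A) {α β : ℂ} (u : ℝ)
    (hα : ‖α‖ ≤ 1 / 16) (hβ : ‖β‖ ≤ 1 / 16) (hl : 2 * ‖α + β‖ * |Real.log A| ≤ l) :
    ‖Xf A (1 / 2 + α + u * I) (1 / 2 + β - u * I)‖ ≤
      Real.exp l * ((1 + CG) * (1 + |u|) ^ BG) := by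
  unfold Xf
  rw [norm_mul]
  have hu : 1 ≤ (1 + |u|) ^ BG := Real.one_le_rpow (by linarith [abs_nonneg u]) hBG
  refine mul_le_mul ?_ ?_ (norm_nonneg _) (Real.exp_nonneg _)
  · rw [Complex.norm_cpow_eq_rpow_re_of_pos hA, Real.rpow_def_of_pos hA]
    apply Real.exp_le_exp.2
    have e : (2 - 2 * (1 / 2 + α + u * I + (1 / 2 + β - u * I))).re = -(2 * (α + β).re) := by
      have e2 : (2 : ℂ) - 2 * (1 / 2 + α + u * I + (1 / 2 + β - u * I)) = -(2 * (α + β)) := by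
        ring
      rw [e2]
      simp
    rw [e]
    have h1 := Complex.abs_re_le_norm (α + β)
    calc Real.log A * -(2 * (α + β).re) ≤ |Real.log A * -(2 * (α + β).re)| := le_abs_self _
      _ = 2 * |(α + β).re| * |Real.log A| := by
        rw [abs_mul, abs_neg, abs_mul, abs_two]
        ring
      _ ≤ 2 * ‖α + β‖ * |Real.log A| := by gcongr
      _ ≤ l := hl
  · have h := hG α β u hα hβ
    obtain ⟨z, hz⟩ : ∃ z, z = Gamma (1 - (1 / 2 + α + u * I)) * Gamma (1 - (1 / 2 + β - u * I)) /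
      (Gamma (1 / 2 + α + u * I) * Gamma (1 / 2 + β - u * I)) := ⟨_, rfl⟩
    rw [← hz] at h ⊢
    have h3 : ‖z‖ ≤ ‖z - 1‖ + 1 := by
      have h4 := norm_add_le (z - 1) 1
      rw [sub_add_cancel, norm_one] at h4
      exact h4
    have h5 : CG * (‖α‖ + ‖β‖) * (1 + |u|) ^ BG ≤ CG * 1 * (1 + |u|) ^ BG := by
      gcongr
      linarith
    have h6 : (1 + CG) * (1 + |u|) ^ BG = (1 + |u|) ^ BG + CG * 1 * (1 + |u|) ^ BG := by ring
    linarith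

section

variable {K : Type} [Field K] [NumberField K]

theorem gam1 {α : ℂ} (hα : ‖α‖ ≤ 1 / 16) (u : ℝ) : Gamma (1 - (1 / 2 + α + u * I)) ≠ 0 := by
  apply Complex.Gamma_ne_zero_of_re_pos
  rw [Complex.sub_re, re1, Complex.one_re]
  have h := (le_abs_self _).trans (Complex.abs_re_le_norm α)
  linarith

theorem gam2 {β : ℂ} (hβ : ‖β‖ ≤ 1 / 16) (u : ℝ) : Gamma (1 - (1 / 2 + β - u * I)) ≠ 0 := by
  apply Complex.Gamma_ne_zero_of_re_pos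
  rw [Complex.sub_re, re2, Complex.one_re]
  have h := (le_abs_self _).trans (Complex.abs_re_le_norm β)
  linarith

theorem ident {A : ℝ} (hA : 0 < A) (M : ℝ) {α β : ℂ} (u : ℝ) (E : ℂ → ℂ) (D D' X : ℂ)
    (hX : X = Xf A (1 / 2 + α + u * I) (1 / 2 + β - u * I)) (hα : ‖α‖ ≤ 1 / 16)
    (hβ : ‖β‖ ≤ 1 / 16) :
    D + X * D' - (1 / (α + β) * E (1 + (α + β)) * Sd K M α β -
      X * (1 / (α + β) * E (1 - (α + β)) * Sd K M (-β) (-α))) =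
    (D - 1 / (α + β) * (E (1 + (α + β)) * Sd K M α β -
      (rho K : ℂ) * Gq (1 / 2 + α + u * I) (1 / 2 + β - u * I) (-((α + β) / 2)) *
        cexp ((α + β) ^ 2 / 2) * Rr K M A α β)) +
    X * (D' - 1 / (-β + -α) * (E (1 + (-β + -α)) * Sd K M (-β) (-α) -
      (rho K : ℂ) * Gq (1 / 2 + -β + u * I) (1 / 2 + -α - u * I) (-((-β + -α) / 2)) *
        cexp ((-β + -α) ^ 2 / 2) * Rr K M A (-β) (-α))) := by
  have h := Rr_cancel (K := K) hA M α β u (gam1 hα u) (gam2 hβ u)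
  have e1 : (1 : ℂ) / 2 + -β + u * I = 1 - (1 / 2 + β - u * I) := by ring
  have e2 : (1 : ℂ) / 2 + -α - u * I = 1 - (1 / 2 + α + u * I) := by ring
  have e3 : (1 : ℂ) + (-β + -α) = 1 - (α + β) := by ring
  have e4 : (-β + -α) ^ 2 = (α + β) ^ 2 := by ring
  have e5 : 1 / (-β + -α) = -(1 / (α + β)) := by
    rw [show -β + -α = -(α + β) by ring, one_div_neg_eq_neg_one_div]
  rw [← hX] at h
  rw [e1, e2, e3, e4, e5]
  linear_combination -(1 / (α + β) * (rho K : ℂ) * cexp ((α + β) ^ 2 / 2)) * h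

end

/-- the error terms tend to zero -/
theorem small {ε₁ η Z : ℝ} (hε : 0 < ε₁) (hη : 0 < η) (hZ : 0 ≤ Z) : ∃ q₀ : ℕ, ∀ q : ℕ,
    q₀ ≤ q → Z * ((1 + Real.log q) ^ 4 * (q : ℝ) ^ (-(ε₁ / 2))) ≤ η := by
  have hδ : 0 < ε₁ / 16 := by positivity
  have h1 : Tendsto (fun q : ℕ => Z * ((1 + 1 / (ε₁ / 16)) ^ 4 * (q : ℝ) ^ (-(ε₁ / 4)))) atTop
      (𝓝 (Z * ((1 + 1 / (ε₁ / 16)) ^ 4 * 0))) :=
    (((tendsto_rpow_neg_atTop (by positivity)).comp tendsto_natCast_atTop_atTop).const_mul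
      _).const_mul _
  rw [mul_zero, mul_zero] at h1
  obtain ⟨q₀, hq₀⟩ := eventually_atTop.1 (h1.eventually (gt_mem_nhds hη))
  refine ⟨max q₀ 1, fun q hq => ?_⟩
  have hq1 : (1 : ℝ) ≤ q := by exact_mod_cast (le_max_right _ _).trans hq
  have hq0 : (0 : ℝ) < q := by linarith
  refine le_trans ?_ (hq₀ q ((le_max_left _ _).trans hq)).le
  refine mul_le_mul_of_nonneg_left ?_ hZ
  have h2 : 1 + Real.log q ≤ (1 + 1 / (ε₁ / 16)) * (q : ℝ) ^ (ε₁ / 16) := by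
    have h3 := Real.log_le_rpow_div hq0.le hδ
    have h4 : 1 ≤ (q : ℝ) ^ (ε₁ / 16) := Real.one_le_rpow hq1 hδ.le
    have e : (1 + 1 / (ε₁ / 16)) * (q : ℝ) ^ (ε₁ / 16) =
      (q : ℝ) ^ (ε₁ / 16) + (q : ℝ) ^ (ε₁ / 16) / (ε₁ / 16) := by ring
    linarith
  have h5 : 0 ≤ 1 + Real.log q := by linarith [Real.log_nonneg hq1]
  calc (1 + Real.log q) ^ 4 * (q : ℝ) ^ (-(ε₁ / 2)) ≤
      ((1 + 1 / (ε₁ / 16)) * (q : ℝ) ^ (ε₁ / 16)) ^ 4 * (q : ℝ) ^ (-(ε₁ / 2)) := by gcongr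
    _ = (1 + 1 / (ε₁ / 16)) ^ 4 * (((q : ℝ) ^ (ε₁ / 16)) ^ 4 * (q : ℝ) ^ (-(ε₁ / 2))) := by
      rw [mul_pow]
      ring
    _ = (1 + 1 / (ε₁ / 16)) ^ 4 * (q : ℝ) ^ (-(ε₁ / 4)) := by
      congr 1
      rw [← Real.rpow_natCast, ← Real.rpow_mul hq0.le, ← Real.rpow_add hq0]
      congr 1
      push_cast
      ring

/-- the sizes of the parameters -/
theorem sizes {cK x ε₁ : ℝ} (hcK : 0 < cK) (hx : 1 ≤ x) (hε : 0 < ε₁) :
    ((cK * x) ^ 2 / (x ^ (1 - 2 * ε₁)) ^ 2) ^ (-(1 / 8) : ℝ) = cK ^ (-(1 / 4) : ℝ) *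
      x ^ (-(ε₁ / 2)) ∧
    ((cK * x) ^ 2 * (x ^ (1 - 2 * ε₁)) ^ 2) ^ (1 / 4 : ℝ) * x ^ (-(11 / 8) : ℝ) ≤
      cK ^ (1 / 2 : ℝ) * x ^ (-(ε₁ / 2)) := by
  have hx0 : 0 < x := by linarith
  constructor
  · have e1 : (cK * x) ^ 2 / (x ^ (1 - 2 * ε₁)) ^ 2 = cK ^ 2 * x ^ (4 * ε₁) := by
      rw [← Real.rpow_natCast (x ^ (1 - 2 * ε₁)), ← Real.rpow_mul hx0.le, mul_pow,
        ← Real.rpow_natCast x, mul_div_assoc, ← Real.rpow_sub hx0]
      congr 2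
      push_cast
      ring
    rw [e1, Real.mul_rpow (by positivity) (by positivity), ← Real.rpow_natCast,
      ← Real.rpow_mul hcK.le, ← Real.rpow_mul hx0.le]
    congr 2
    · push_cast
      ring
    · ring
  · have e1 : (cK * x) ^ 2 * (x ^ (1 - 2 * ε₁)) ^ 2 = cK ^ 2 * x ^ (4 - 4 * ε₁) := by
      rw [← Real.rpow_natCast (x ^ (1 - 2 * ε₁)), ← Real.rpow_mul hx0.le, mul_pow,
        ← Real.rpow_natCast x, mul_assoc, ← Real.rpow_add hx0]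
      congr 2
      push_cast
      ring
    rw [e1, Real.mul_rpow (by positivity) (by positivity), ← Real.rpow_natCast,
      ← Real.rpow_mul hcK.le, ← Real.rpow_mul hx0.le, mul_assoc, ← Real.rpow_add hx0]
    have e2 : ((2 : ℕ) : ℝ) * (1 / 4) = 1 / 2 := by norm_num
    rw [e2]
    refine mul_le_mul_of_nonneg_left ?_ (by positivity)
    apply Real.rpow_le_rpow_of_exponent_le hx
    linarith

theorem pf_DI (_h1 : Pool.Agent.H65.CRZ.T_G1) (h2 : Pool.Agent.H65.CRZ.T_G3)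
    (_h3 : Pool.Agent.H65.CRZ.T_SB) (h4 : Pool.Agent.H65.CRZ.T_SA) (h5 : Pool.Agent.H65.CRZ.T_SC)
    (h6 : Pool.Agent.H65.CRZ.T_CQ) : Pool.Agent.H65.CRZ.T_DI := by
  intro K _ _ _ hK E ε₁ c C₀ hE hε hε' hc hC₀
  obtain ⟨CS, BS, hCS, hBS, hside⟩ := side h4 h5 E hE
  obtain ⟨CG, BG, hCG, hBG, hG⟩ := h2
  obtain ⟨-, cK, hcK, hcA⟩ := h6 K hK
  obtain ⟨CU, -, hGU, -⟩ := a_GU K
  refine ⟨BS + BG, add_nonneg hBS hBG, fun η hη => ?_⟩
  obtain ⟨X₀, hX₀⟩ : ∃ X₀, X₀ = Real.exp (4 * C₀ * (1 + |Real.log cK| / Real.log 2)) :=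
    ⟨_, rfl⟩
  have hX0 : 1 ≤ X₀ := by
    rw [hX₀]
    apply Real.one_le_exp
    have := Real.log_pos (show (1 : ℝ) < 2 by norm_num)
    positivity
  obtain ⟨Z, hZ⟩ : ∃ Z, Z = (1 + X₀ * (1 + CG)) * (CS * Real.exp (4 * C₀) *
      |CU| ^ 3 * (cK ^ (-(1 / 4) : ℝ) / c + cK ^ (1 / 2 : ℝ))) := ⟨_, rfl⟩
  have hZ0 : 0 ≤ Z := by
    rw [hZ]
    positivity
  obtain ⟨q₁, hq₁⟩ := small hε hη hZ0
  obtain ⟨q₂, hq₂⟩ : ∃ q₂ : ℕ, ∀ q : ℕ, q₂ ≤ q → 16 * C₀ ≤ Real.log q := by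
    have h : Tendsto (fun q : ℕ => Real.log q) atTop atTop :=
      Real.tendsto_log_atTop.comp tendsto_natCast_atTop_atTop
    obtain ⟨q₂, hq₂⟩ := eventually_atTop.1 (h.eventually (eventually_ge_atTop (16 * C₀)))
    exact ⟨q₂, hq₂⟩
  refine ⟨max q₁ q₂, fun q hq hqq α β u hα hβ hω => ?_⟩
  have hqa := hq₁ q ((le_max_left _ _).trans hqq)
  have hqb := hq₂ q ((le_max_right _ _).trans hqq)
  have hq2 : (2 : ℝ) ≤ q := by exact_mod_cast hq.two_le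
  have hq0 : (0 : ℝ) < q := by linarith
  have hq1 : (1 : ℝ) ≤ q := by linarith
  have hlog2 : 0 < Real.log 2 := Real.log_pos (by norm_num)
  have hlog : Real.log 2 ≤ Real.log q := Real.log_le_log (by norm_num) hq2
  have hl0 : 0 < Real.log q := by linarith
  have hC16 : C₀ / Real.log q ≤ 1 / 16 := by
    rw [div_le_iff₀ hl0]
    linarith
  have hα16 := hα.trans hC16
  have hβ16 := hβ.trans hC16
  have hω0 : 0 < ‖α + β‖ := lt_of_lt_of_le (by positivity) hω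
  have hωne : α + β ≠ 0 := norm_pos_iff.1 hω0
  have hM1 : 1 ≤ Mq ε₁ q := Real.one_le_rpow hq1 (by linarith)
  have hlM : Real.log (Mq ε₁ q) ≤ Real.log q := by
    unfold Mq
    rw [Real.log_rpow hq0]
    nlinarith
  have hlM0 : 0 ≤ Real.log (Mq ε₁ q) := Real.log_nonneg hM1
  have hακ : ‖α‖ * Real.log (Mq ε₁ q) ≤ C₀ := by
    calc ‖α‖ * Real.log (Mq ε₁ q) ≤ C₀ / Real.log q * Real.log q :=
        mul_le_mul hα hlM hlM0 (by positivity)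
      _ = C₀ := div_mul_cancel₀ _ hl0.ne'
  have hβκ : ‖β‖ * Real.log (Mq ε₁ q) ≤ C₀ := by
    calc ‖β‖ * Real.log (Mq ε₁ q) ≤ C₀ / Real.log q * Real.log q :=
        mul_le_mul hβ hlM hlM0 (by positivity)
      _ = C₀ := div_mul_cancel₀ _ hl0.ne'
  obtain ⟨hA, -⟩ := hcA q hq
  have hA0 : 0 < cA K (qi K q) := by rw [hA]; positivity
  -- the two sides
  have k1 := hside q (cA K (qi K q)) (Mq ε₁ q) C₀ α β u hq hA0 hM1 hα16 hβ16 hωne hακ hβκ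
  have hne' : -β + -α ≠ 0 := by
    intro h
    apply hωne
    linear_combination -h
  have hnn : ‖-β + -α‖ = ‖α + β‖ := by
    rw [show -β + -α = -(α + β) by ring, norm_neg]
  have k2 := hside q (cA K (qi K q)) (Mq ε₁ q) C₀ (-β) (-α) u hq hA0 hM1
    (by rw [norm_neg]; exact hβ16) (by rw [norm_neg]; exact hα16) hne'
    (by rw [norm_neg]; exact hβκ) (by rw [norm_neg]; exact hακ)
  rw [hnn] at k2
  -- the factor
  have hXl : 2 * ‖α + β‖ * |Real.log (cA K (qi K q))| ≤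
      4 * C₀ * (1 + |Real.log cK| / Real.log 2) := by
    have e1 : |Real.log (cA K (qi K q))| ≤ |Real.log cK| + Real.log q := by
      rw [hA, Real.log_mul hcK.ne' hq0.ne']
      exact (abs_add_le _ _).trans (by rw [abs_of_pos hl0])
    have e2 : ‖α + β‖ ≤ 2 * (C₀ / Real.log q) := (norm_add_le _ _).trans (by linarith)
    calc 2 * ‖α + β‖ * |Real.log (cA K (qi K q))| ≤
        2 * (2 * (C₀ / Real.log q)) * (|Real.log cK| + Real.log q) := by gcongr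
      _ = 4 * C₀ * (1 + |Real.log cK| / Real.log q) := by
        field_simp
        ring
      _ ≤ 4 * C₀ * (1 + |Real.log cK| / Real.log 2) := by gcongr
  have k3 := Xf_le hCG hBG hG hA0 u hα16 hβ16 hXl
  rw [← hX₀] at k3
  -- the error
  obtain ⟨V, hV⟩ : ∃ V, V = CS * (1 + |u|) ^ BS * Real.exp (4 * C₀) *
      GS np (PM K (Mq ε₁ q)) (Mq ε₁ q) ^ 3 *
      ((cA K (qi K q) ^ 2 / Mq ε₁ q ^ 2) ^ (-(1 / 8) : ℝ) / ‖α + β‖ +
        (cA K (qi K q) ^ 2 * Mq ε₁ q ^ 2) ^ (1 / 4 : ℝ) * (q : ℝ) ^ (-(11 / 8) : ℝ)) := ⟨_, rfl⟩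
  rw [← hV] at k1 k2
  have hGS0 : 0 ≤ GS np (PM K (Mq ε₁ q)) (Mq ε₁ q) := by
    unfold GS
    refine Finset.sum_nonneg fun S _ => inv_nonneg.2 ?_
    unfold fS
    exact Finset.prod_nonneg fun P _ => by
      have := Pool.Agent.H94.CV.F1.two_le_np P
      linarith
  have hV1 : V ≤ CS * (1 + |u|) ^ BS * Real.exp (4 * C₀) * (|CU| * (1 + Real.log q)) ^ 3 *
      ((cK ^ (-(1 / 4) : ℝ) / c + cK ^ (1 / 2 : ℝ)) * ((1 + Real.log q) *
        (q : ℝ) ^ (-(ε₁ / 2)))) := by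
    rw [hV]
    have g1 : GS np (PM K (Mq ε₁ q)) (Mq ε₁ q) ≤ |CU| * (1 + Real.log q) := by
      refine (hGU _ hM1).trans ?_
      have h : CU * (1 + Real.log (Mq ε₁ q)) ≤ |CU| * (1 + Real.log (Mq ε₁ q)) :=
        mul_le_mul_of_nonneg_right (le_abs_self _) (by linarith)
      refine h.trans (mul_le_mul_of_nonneg_left (by linarith) (abs_nonneg _))
    obtain ⟨s1, s2⟩ := sizes (ε₁ := ε₁) hcK hq1 hε
    have g2 : (cA K (qi K q) ^ 2 / Mq ε₁ q ^ 2) ^ (-(1 / 8) : ℝ) / ‖α + β‖ +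
        (cA K (qi K q) ^ 2 * Mq ε₁ q ^ 2) ^ (1 / 4 : ℝ) * (q : ℝ) ^ (-(11 / 8) : ℝ) ≤
        (cK ^ (-(1 / 4) : ℝ) / c + cK ^ (1 / 2 : ℝ)) * ((1 + Real.log q) *
        (q : ℝ) ^ (-(ε₁ / 2))) := by
      rw [hA]
      unfold Mq
      rw [s1]
      have t1 : cK ^ (-(1 / 4) : ℝ) * (q : ℝ) ^ (-(ε₁ / 2)) / ‖α + β‖ ≤
          cK ^ (-(1 / 4) : ℝ) / c * ((1 + Real.log q) * (q : ℝ) ^ (-(ε₁ / 2))) := by
        rw [div_le_iff₀ hω0]
        have t2 : 1 ≤ (1 + Real.log q) / c * ‖α + β‖ := by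
          calc (1 : ℝ) = Real.log q / c * (c / Real.log q) := by
                field_simp
            _ ≤ (1 + Real.log q) / c * ‖α + β‖ := by
                gcongr
                linarith
        calc cK ^ (-(1 / 4) : ℝ) * (q : ℝ) ^ (-(ε₁ / 2)) =
            cK ^ (-(1 / 4) : ℝ) * (q : ℝ) ^ (-(ε₁ / 2)) * 1 := (mul_one _).symm
          _ ≤ cK ^ (-(1 / 4) : ℝ) * (q : ℝ) ^ (-(ε₁ / 2)) *
              ((1 + Real.log q) / c * ‖α + β‖) := by gcongr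
          _ = _ := by ring
      have t3 : cK ^ (1 / 2 : ℝ) * (q : ℝ) ^ (-(ε₁ / 2)) ≤
          cK ^ (1 / 2 : ℝ) * ((1 + Real.log q) * (q : ℝ) ^ (-(ε₁ / 2))) := by
        refine mul_le_mul_of_nonneg_left ?_ (by positivity)
        exact le_mul_of_one_le_left (by positivity) (by linarith)
      have e : (cK ^ (-(1 / 4) : ℝ) / c + cK ^ (1 / 2 : ℝ)) * ((1 + Real.log q) *
          (q : ℝ) ^ (-(ε₁ / 2))) = cK ^ (-(1 / 4) : ℝ) / c * ((1 + Real.log q) *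
          (q : ℝ) ^ (-(ε₁ / 2))) + cK ^ (1 / 2 : ℝ) * ((1 + Real.log q) *
          (q : ℝ) ^ (-(ε₁ / 2))) := by ring
      rw [e]
      exact add_le_add t1 (s2.trans t3)
    have hg2 : 0 ≤ (cA K (qi K q) ^ 2 / Mq ε₁ q ^ 2) ^ (-(1 / 8) : ℝ) / ‖α + β‖ +
        (cA K (qi K q) ^ 2 * Mq ε₁ q ^ 2) ^ (1 / 4 : ℝ) * (q : ℝ) ^ (-(11 / 8) : ℝ) := by
      have : 0 < Mq ε₁ q := by linarith
      positivity
    gcongr
  have hu0 : 0 < (1 + |u|) ^ BS := by positivity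
  have hug : 1 ≤ (1 + |u|) ^ BG := Real.one_le_rpow (by linarith [abs_nonneg u]) hBG
  have hV0 : 0 ≤ V := (norm_nonneg _).trans k1
  -- the end
  have e1 : (1 : ℂ) - (1 / 2 + β - u * I) = 1 / 2 + -β + u * I := by ring
  have e2 : (1 : ℂ) - (1 / 2 + α + u * I) = 1 / 2 + -α - u * I := by ring
  rw [e1, e2]
  rw [ident (K := K) hA0 (Mq ε₁ q) u E _ _ _ rfl hα16 hβ16]
  refine (norm_add_le _ _).trans ?_
  rw [norm_mul]
  calc _ ≤ V + X₀ * ((1 + CG) * (1 + |u|) ^ BG) * V :=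
        add_le_add k1 (mul_le_mul k3 k2 (norm_nonneg _) (by positivity))
    _ ≤ (1 + |u|) ^ BG * ((1 + X₀ * (1 + CG)) * V) := by
        have : V ≤ (1 + |u|) ^ BG * V := le_mul_of_one_le_left hV0 hug
        have e : (1 + |u|) ^ BG * ((1 + X₀ * (1 + CG)) * V) = (1 + |u|) ^ BG * V +
          X₀ * ((1 + CG) * (1 + |u|) ^ BG) * V := by ring
        linarith
    _ ≤ (1 + |u|) ^ BG * ((1 + X₀ * (1 + CG)) * (CS * (1 + |u|) ^ BS * Real.exp (4 * C₀) *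
          (|CU| * (1 + Real.log q)) ^ 3 * ((cK ^ (-(1 / 4) : ℝ) / c + cK ^ (1 / 2 : ℝ)) *
            ((1 + Real.log q) * (q : ℝ) ^ (-(ε₁ / 2)))))) := by
        gcongr
    _ = Z * ((1 + Real.log q) ^ 4 * (q : ℝ) ^ (-(ε₁ / 2))) * (1 + |u|) ^ (BS + BG) := by
        rw [hZ, Real.rpow_add (by positivity)]
        ring
    _ ≤ η * (1 + |u|) ^ (BS + BG) := by gcongr

end Pool.Agent.H21.CRZ
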