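import Pool.Agent.H65.CRZ.TD
import Pool.Agent.H37.CV.All

/-!
# The diagonal term (row DI of the board `crz_modules`), part 1: the algebra
-/

set_option autoImplicit false

open NumberField NumberField.InfinitePlace Complex Filter Topology MeasureTheory

namespace Pool.Agent.H21.CRZ

open Pool.Agent.H28.RC Pool.Agent.H25.HK Pool.Agent.H37.CV Pool.Agent.H65.CRZ
open Pool.Agent.H94.CV.F1 (nm_top pf_top one_le_nS mem_DM xw_le)

/-- powers of positive numbers -/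
theorem cpw {a : ℝ} (ha : 0 < a) (z : ℂ) : (a : ℂ) ^ z = cexp ((Real.log a : ℂ) * z) := by
  rw [Complex.cpow_def_of_ne_zero (by exact_mod_cast ha.ne'), ← Complex.ofReal_log ha.le]

theorem term_eq {x y g : ℝ} (hx : 0 < x) (hy : 0 < y) (hg : 0 < g) (a b : ℝ) (α β : ℂ) (u : ℝ) :
    ((a : ℂ) * (x : ℂ) ^ (-(1 / 2 + (u : ℂ) * I))) *
      ((b : ℂ) * (y : ℂ) ^ (-(1 / 2 + ((-u : ℝ) : ℂ) * I))) *
      (((y / g : ℝ) : ℂ) ^ (-(1 / 2 + α + u * I)) * ((x / g : ℝ) : ℂ) ^ (-(1 / 2 + β - u * I))) =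
    ((a * b : ℝ) : ℂ) * ((x : ℂ) ^ (-(1 + β)) * (y : ℂ) ^ (-(1 + α)) *
      (g : ℂ) ^ (1 + α + β)) := by
  rw [cpw hx, cpw hy, cpw (div_pos hy hg), cpw (div_pos hx hg), cpw hx, cpw hy, cpw hg,
    Real.log_div hy.ne' hg.ne', Real.log_div hx.ne' hg.ne']
  push_cast
  have e : ∀ p q r s t v w : ℂ, p + q + (r + s) = t + v + w →
      (a : ℂ) * cexp p * (b * cexp q) * (cexp r * cexp s) =
        a * b * (cexp t * cexp v * cexp w) := by
    intro p q r s t v w h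
    have h2 := congrArg cexp h
    rw [Complex.exp_add, Complex.exp_add p q, Complex.exp_add r s, Complex.exp_add (t + v) w,
      Complex.exp_add t v] at h2
    linear_combination (a : ℂ) * b * h2
  apply e
  ring

/-- the argument of the weight -/
noncomputable def Yv (A x y g : ℝ) : ℝ := A ^ 2 * g ^ 2 / (x * y)

theorem Yv_pos {A x y g : ℝ} (hA : 0 < A) (hx : 0 < x) (hy : 0 < y) (hg : 0 < g) :
    0 < Yv A x y g := by
  unfold Yv
  positivity

theorem log_Yv {A x y g : ℝ} (hA : 0 < A) (hx : 0 < x) (hy : 0 < y) (hg : 0 < g) :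
    Real.log (Yv A x y g) = 2 * Real.log A + 2 * Real.log g - (Real.log x + Real.log y) := by
  unfold Yv
  rw [Real.log_div (by positivity) (by positivity), Real.log_mul (by positivity) (by positivity),
    Real.log_mul hx.ne' hy.ne', Real.log_pow, Real.log_pow]
  push_cast
  ring

/-- the polar terms cancel -/
theorem cancel {A x y g : ℝ} (hA : 0 < A) (hx : 0 < x) (hy : 0 < y) (hg : 0 < g) (α β : ℂ)
    (u : ℝ) (hG1 : Gamma (1 - (1 / 2 + α + u * I)) ≠ 0)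
    (hG2 : Gamma (1 - (1 / 2 + β - u * I)) ≠ 0) :
    Gq (1 / 2 + α + u * I) (1 / 2 + β - u * I) (-((α + β) / 2)) *
      ((x : ℂ) ^ (-(1 + β)) * (y : ℂ) ^ (-(1 + α)) * (g : ℂ) ^ (1 + α + β) *
        ((Yv A x y g : ℝ) : ℂ) ^ (-((α + β) / 2))) =
    Xf A (1 / 2 + α + u * I) (1 / 2 + β - u * I) *
      (Gq (1 - (1 / 2 + β - u * I)) (1 - (1 / 2 + α + u * I)) (-((-β + -α) / 2)) *
        ((x : ℂ) ^ (-(1 + -α)) * (y : ℂ) ^ (-(1 + -β)) * (g : ℂ) ^ (1 + -β + -α) *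
          ((Yv A x y g : ℝ) : ℂ) ^ (-((-β + -α) / 2)))) := by
  unfold Gq Xf
  rw [cpw hx, cpw hy, cpw hg, cpw (Yv_pos hA hx hy hg), cpw hx, cpw hy, cpw hg,
    cpw (Yv_pos hA hx hy hg), cpw hA, log_Yv hA hx hy hg]
  have e1 : 1 - (1 / 2 + β - u * I) + -((-β + -α) / 2) = 1 / 2 + α + u * I + -((α + β) / 2) := by
    ring
  have e2 : 1 - (1 / 2 + α + u * I) + -((-β + -α) / 2) = 1 / 2 + β - u * I + -((α + β) / 2) := by
    ring
  rw [e1, e2]
  rw [← Complex.exp_add, ← Complex.exp_add, ← Complex.exp_add, ← Complex.exp_add,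
    ← Complex.exp_add, ← Complex.exp_add]
  obtain ⟨G1, hG1'⟩ : ∃ G1, G1 = Gamma (1 - (1 / 2 + α + u * I)) := ⟨_, rfl⟩
  obtain ⟨G2, hG2'⟩ : ∃ G2, G2 = Gamma (1 - (1 / 2 + β - u * I)) := ⟨_, rfl⟩
  obtain ⟨G3, hG3'⟩ : ∃ G3, G3 = Gamma (1 / 2 + α + u * I + -((α + β) / 2)) := ⟨_, rfl⟩
  obtain ⟨G4, hG4'⟩ : ∃ G4, G4 = Gamma (1 / 2 + β - u * I + -((α + β) / 2)) := ⟨_, rfl⟩
  obtain ⟨G5, hG5'⟩ : ∃ G5, G5 = Gamma (1 / 2 + α + u * I) * Gamma (1 / 2 + β - u * I) :=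
    ⟨_, rfl⟩
  rw [← hG1', ← hG2', ← hG3', ← hG4', ← hG5']
  rw [← hG1'] at hG1
  rw [← hG2'] at hG2
  have key : ∀ p q r : ℂ, p = q + r →
      G3 * G4 / G5 * cexp p = cexp q * (G1 * G2 / G5) * (G3 * G4 / (G2 * G1) * cexp r) := by
    intro p q r h
    rw [h, Complex.exp_add]
    field_simp
  apply key
  push_cast
  ring

section

variable {K : Type} [Field K] [NumberField K]

open scoped Classical in
theorem gg0 (S T : Finset (PrI K)) : gg np ∅ ∅ S T = nS np (S ∩ T) := by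
  have h : nS np (∅ : Finset (PrI K)) = 1 := Finset.prod_empty
  unfold gg
  refine (congrArg₂ (· * ·) (congrArg₂ (· * ·)
    (congrArg (nS np) (?_ : _ = (∅ : Finset (PrI K))))
    (congrArg (nS np) (?_ : _ = (∅ : Finset (PrI K)))))
    (congrArg (nS np) (?_ : _ = S ∩ T))).trans ?_
  · ext x
    simp only [Finset.mem_inter, Finset.notMem_empty, and_false]
  · ext x
    simp only [Finset.mem_inter, Finset.notMem_empty, and_false]
  · ext x
    simp only [Finset.mem_sdiff, Finset.mem_inter, Finset.mem_union, Finset.notMem_empty, or_self,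
      not_false_eq_true, and_true]
  · simp only [h, one_mul]

open scoped Classical in
/-- the coefficient -/
noncomputable def Wc (M : ℝ) (α β : ℂ) (S T : Finset (PrI K)) : ℂ :=
  ((xw K M S * xw K M T : ℝ) : ℂ) * (((nS np S : ℝ) : ℂ) ^ (-(1 + β)) *
    ((nS np T : ℝ) : ℂ) ^ (-(1 + α)) * ((nS np (S ∩ T) : ℝ) : ℂ) ^ (1 + α + β))

open scoped Classical in
/-- the argument of the weight -/
noncomputable def Ys (A : ℝ) (S T : Finset (PrI K)) : ℝ :=
  Yv A (nS np S) (nS np T) (nS np (S ∩ T))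

theorem nS_pos' (S : Finset (PrI K)) : 0 < nS np S := lt_of_lt_of_le one_pos (one_le_nS S)

theorem Ys_pos {A : ℝ} (hA : 0 < A) (S T : Finset (PrI K)) : 0 < Ys A S T :=
  Yv_pos hA (nS_pos' S) (nS_pos' T) (nS_pos' _)

theorem Dg_eq (m : Ideal (𝓞 K)) (A M : ℝ) (α β : ℂ) (u : ℝ) :
    Dg m (A ^ 2) M (1 / 2 + α + u * I) (1 / 2 + β - u * I) (cu K M u) (cu K M (-u)) ⊤ ⊤ =
      ∑ S ∈ DM K M, ∑ T ∈ DM K M, Wc M α β S T *
        Sg m (1 / 2 + α + u * I) (1 / 2 + β - u * I) (Ys A S T) := by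
  unfold Dg
  rw [nm_top, Complex.ofReal_one, Complex.one_cpow, Complex.one_cpow, one_mul, one_mul, pf_top]
  refine Finset.sum_congr rfl fun S _ => Finset.sum_congr rfl fun T _ => ?_
  rw [gg0]
  have e1 : A ^ 2 * nS np (S ∩ T) ^ 2 / (nS np S * nS np T * (1 * 1)) = Ys A S T := by
    unfold Ys Yv
    rw [mul_one, mul_one]
  rw [e1]
  congr 1
  exact term_eq (nS_pos' S) (nS_pos' T) (nS_pos' _) _ _ α β u

variable (K) in
/-- the sum of the polar terms -/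
noncomputable def Rr (M A : ℝ) (α β : ℂ) : ℂ :=
  ∑ S ∈ DM K M, ∑ T ∈ DM K M, Wc M α β S T * ((Ys A S T : ℝ) : ℂ) ^ (-((α + β) / 2))

theorem Sd_eq (M : ℝ) (α β : ℂ) :
    Sd K M α β = ∑ S ∈ DM K M, ∑ T ∈ DM K M, Wc M α β S T := rfl

/-- the polar terms of the term and of the dual term cancel -/
theorem Rr_cancel {A : ℝ} (hA : 0 < A) (M : ℝ) (α β : ℂ) (u : ℝ)
    (hG1 : Gamma (1 - (1 / 2 + α + u * I)) ≠ 0) (hG2 : Gamma (1 - (1 / 2 + β - u * I)) ≠ 0) :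
    Gq (1 / 2 + α + u * I) (1 / 2 + β - u * I) (-((α + β) / 2)) * Rr K M A α β =
    Xf A (1 / 2 + α + u * I) (1 / 2 + β - u * I) *
      (Gq (1 - (1 / 2 + β - u * I)) (1 - (1 / 2 + α + u * I)) (-((-β + -α) / 2)) *
        Rr K M A (-β) (-α)) := by
  unfold Rr
  simp only [Finset.mul_sum]
  refine Finset.sum_congr rfl fun S _ => Finset.sum_congr rfl fun T _ => ?_
  have h := cancel hA (nS_pos' S) (nS_pos' T) (nS_pos' (S ∩ T)) α β u hG1 hG2
  unfold Wc Ys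
  linear_combination ((xw K M S * xw K M T : ℝ) : ℂ) * h

/-! ### The coefficients -/

theorem cpow_le {x M κ : ℝ} (hx : 1 ≤ x) (hxM : x ≤ M) {z : ℂ} (hz : ‖z‖ * Real.log M ≤ κ) :
    ‖(x : ℂ) ^ (-(1 + z))‖ ≤ x⁻¹ * Real.exp κ := by
  have hx0 : 0 < x := by linarith
  rw [Complex.norm_cpow_eq_rpow_re_of_pos hx0, Real.rpow_def_of_pos hx0]
  have e1 : (-(1 + z)).re = -1 - z.re := by
    simp
    ring
  have e2 : x⁻¹ = Real.exp (-Real.log x) := by rw [Real.exp_neg, Real.exp_log hx0]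
  rw [e1, e2, ← Real.exp_add]
  apply Real.exp_le_exp.2
  have h1 : |z.re| ≤ ‖z‖ := Complex.abs_re_le_norm z
  have h2 : 0 ≤ Real.log x := Real.log_nonneg hx
  have h3 : Real.log x ≤ Real.log M := Real.log_le_log hx0 hxM
  have h4 : -z.re ≤ ‖z‖ := (neg_le_abs _).trans h1
  nlinarith [norm_nonneg z, mul_le_mul h4 h3 h2 (norm_nonneg z)]

theorem cpow_le' {x M κ : ℝ} (hx : 1 ≤ x) (hxM : x ≤ M) {α β : ℂ} (hα : ‖α‖ * Real.log M ≤ κ)
    (hβ : ‖β‖ * Real.log M ≤ κ) : ‖(x : ℂ) ^ (1 + α + β)‖ ≤ x * Real.exp (2 * κ) := by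
  have hx0 : 0 < x := by linarith
  rw [Complex.norm_cpow_eq_rpow_re_of_pos hx0, Real.rpow_def_of_pos hx0]
  have e1 : (1 + α + β).re = 1 + α.re + β.re := by simp
  have e2 : x * Real.exp (2 * κ) = Real.exp (Real.log x + 2 * κ) := by
    rw [Real.exp_add, Real.exp_log hx0]
  rw [e1, e2]
  apply Real.exp_le_exp.2
  have h1 : |α.re| ≤ ‖α‖ := Complex.abs_re_le_norm α
  have h1' : |β.re| ≤ ‖β‖ := Complex.abs_re_le_norm β
  have h2 : 0 ≤ Real.log x := Real.log_nonneg hx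
  have h3 : Real.log x ≤ Real.log M := Real.log_le_log hx0 hxM
  have h4 : α.re ≤ ‖α‖ := (le_abs_self _).trans h1
  have h5 : β.re ≤ ‖β‖ := (le_abs_self _).trans h1'
  have h6 := mul_le_mul h4 h3 h2 (norm_nonneg α)
  have h7 := mul_le_mul h5 h3 h2 (norm_nonneg β)
  nlinarith

open scoped Classical in
theorem Wc_le {M κ : ℝ} (hM : 1 ≤ M) {α β : ℂ} (hα : ‖α‖ * Real.log M ≤ κ)
    (hβ : ‖β‖ * Real.log M ≤ κ) {S T : Finset (PrI K)} (hS : S ∈ DM K M) (hT : T ∈ DM K M) :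
    ‖Wc M α β S T‖ ≤ Real.exp (4 * κ) * (nS np (S ∩ T) / (nS np S * nS np T)) := by
  have hx := one_le_nS S
  have hy := one_le_nS T
  have hg := one_le_nS (S ∩ T)
  have hSM := (mem_DM hS).2
  have hTM := (mem_DM hT).2
  have hgS : nS np (S ∩ T) ≤ nS np S :=
    Pool.Agent.H49.CV.nS_mono two_le_np Finset.inter_subset_left
  have h1 := xw_le a_CX hM hS
  have h2 := xw_le a_CX hM hT
  have h3 := cpow_le hx hSM hβ
  have h4 := cpow_le hy hTM hα
  have h5 := cpow_le' hg (hgS.trans hSM) hα hβ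
  unfold Wc
  rw [norm_mul, norm_mul, norm_mul, Complex.norm_real, Real.norm_eq_abs, abs_mul]
  have h6 : |xw K M S| * |xw K M T| ≤ 1 := mul_le_one₀ h1 (abs_nonneg _) h2
  calc |xw K M S| * |xw K M T| * (‖((nS np S : ℝ) : ℂ) ^ (-(1 + β))‖ *
        ‖((nS np T : ℝ) : ℂ) ^ (-(1 + α))‖ * ‖((nS np (S ∩ T) : ℝ) : ℂ) ^ (1 + α + β)‖) ≤
      1 * ((nS np S)⁻¹ * Real.exp κ * ((nS np T)⁻¹ * Real.exp κ) *
        (nS np (S ∩ T) * Real.exp (2 * κ))) := by
        refine mul_le_mul h6 ?_ (by positivity) zero_le_one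
        refine mul_le_mul (mul_le_mul h3 h4 (norm_nonneg _) (by positivity)) h5 (norm_nonneg _)
          (by positivity)
    _ = Real.exp (4 * κ) * (nS np (S ∩ T) / (nS np S * nS np T)) := by
        have e : Real.exp (4 * κ) = Real.exp κ * Real.exp κ * Real.exp (2 * κ) := by
          rw [← Real.exp_add, ← Real.exp_add]
          ring_nf
        rw [e]
        field_simp

/-- the argument of the weight is between `A ^ 2 / M ^ 2` and `A ^ 2 M ^ 2` -/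
theorem Ys_bd {A M : ℝ} (hA : 0 < A) (hM : 1 ≤ M) {S T : Finset (PrI K)} (hS : S ∈ DM K M)
    (hT : T ∈ DM K M) : A ^ 2 / M ^ 2 ≤ Ys A S T ∧ Ys A S T ≤ A ^ 2 * M ^ 2 := by
  classical
  have h1 := ((a_CB (PrI K) np (PM K M) ∅ ∅ M two_le_np hM (Finset.disjoint_empty_left _)).1 S hS
    T hT)
  rw [gg0] at h1
  have hx := nS_pos' S
  have hy := nS_pos' T
  have hSM := (mem_DM hS).2
  have hTM := (mem_DM hT).2
  unfold Ys Yv
  constructor
  · rw [div_le_div_iff₀ (by positivity) (by positivity)]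
    have h2 : nS np S * nS np T ≤ M ^ 2 := by nlinarith
    have h3 : 1 ≤ nS np (S ∩ T) ^ 2 := one_le_pow₀ h1.1
    calc A ^ 2 * (nS np S * nS np T) ≤ A ^ 2 * M ^ 2 := by gcongr
      _ = A ^ 2 * 1 * M ^ 2 := by ring
      _ ≤ A ^ 2 * nS np (S ∩ T) ^ 2 * M ^ 2 := by gcongr
  · rw [mul_div_assoc]
    exact mul_le_mul_of_nonneg_left h1.2 (by positivity)

open scoped Classical in
theorem sum_W {M : ℝ} (hM : 1 ≤ M) :
    ∑ S ∈ DM K M, ∑ T ∈ DM K M, nS np (S ∩ T) / (nS np S * nS np T) ≤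
      GS np (PM K M) M ^ 3 := by
  have h1 := (a_CB (PrI K) np (PM K M) ∅ ∅ M two_le_np hM (Finset.disjoint_empty_left _)).2
  simp only [Finset.card_empty, add_zero, pow_zero, one_mul] at h1
  refine le_trans (le_of_eq ?_) h1
  refine Finset.sum_congr rfl fun S _ => Finset.sum_congr rfl fun T _ => ?_
  rw [gg0]

end

end Pool.Agent.H21.CRZ
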