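import Pool.Agent.H21.CRZ.DIa

/-!
# The diagonal term (row DI of the board `crz_modules`), part 2: one side
-/

set_option autoImplicit false

open NumberField NumberField.InfinitePlace Complex Filter Topology MeasureTheory

namespace Pool.Agent.H21.CRZ

open Pool.Agent.H28.RC Pool.Agent.H25.HK Pool.Agent.H37.CV Pool.Agent.H65.CRZ
open Pool.Agent.H94.CV.F1 (nm_top pf_top one_le_nS mem_DM xw_le)

variable {K : Type} [Field K] [NumberField K]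

theorem re1 (α : ℂ) (u : ℝ) : (1 / 2 + α + u * I).re = 1 / 2 + α.re := by simp

theorem im1 (α : ℂ) (u : ℝ) : (1 / 2 + α + u * I).im = α.im + u := by simp

theorem re2 (β : ℂ) (u : ℝ) : (1 / 2 + β - u * I).re = 1 / 2 + β.re := by simp

theorem im2 (β : ℂ) (u : ℝ) : (1 / 2 + β - u * I).im = β.im - u := by simp

theorem U_le {α β : ℂ} (hα : ‖α‖ ≤ 1 / 16) (hβ : ‖β‖ ≤ 1 / 16) (u : ℝ) :
    1 + |(1 / 2 + α + u * I).im| + |(1 / 2 + β - u * I).im| ≤ 3 * (1 + |u|) := by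
  rw [im1, im2]
  have h1 : |α.im + u| ≤ |α.im| + |u| := abs_add_le _ _
  have h2 : |β.im - u| ≤ |β.im| + |u| := abs_sub _ _
  have h3 := Complex.abs_im_le_norm α
  have h4 := Complex.abs_im_le_norm β
  have h5 := abs_nonneg u
  linarith

/-- one side of the diagonal term -/
theorem side (hSA : T_SA) (hSC : T_SC) (E : ℂ → ℂ) (hE : IsE K E) :
    ∃ C B : ℝ, 0 < C ∧ 0 ≤ B ∧ ∀ (q : ℕ) (A M κ : ℝ) (α β : ℂ) (u : ℝ), q.Prime → 0 < A →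
      1 ≤ M → ‖α‖ ≤ 1 / 16 → ‖β‖ ≤ 1 / 16 → α + β ≠ 0 → ‖α‖ * Real.log M ≤ κ →
      ‖β‖ * Real.log M ≤ κ →
      ‖Dg (qi K q) (A ^ 2) M (1 / 2 + α + u * I) (1 / 2 + β - u * I) (cu K M u) (cu K M (-u)) ⊤ ⊤ -
        1 / (α + β) * (E (1 + (α + β)) * Sd K M α β -
          (rho K : ℂ) * Gq (1 / 2 + α + u * I) (1 / 2 + β - u * I) (-((α + β) / 2)) *
            cexp ((α + β) ^ 2 / 2) * Rr K M A α β)‖ ≤
      C * (1 + |u|) ^ B * Real.exp (4 * κ) * GS np (PM K M) M ^ 3 *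
        ((A ^ 2 / M ^ 2) ^ (-(1 / 8) : ℝ) / ‖α + β‖ +
          (A ^ 2 * M ^ 2) ^ (1 / 4 : ℝ) * (q : ℝ) ^ (-(11 / 8) : ℝ)) := by
  obtain ⟨C₁, B₁, hC₁, hB₁, h1⟩ := hSA K E hE
  obtain ⟨C₂, B₂, hC₂, hB₂, h2⟩ := hSC K
  refine ⟨C₁ * 3 ^ B₁ + C₂ * 3 ^ B₂, max B₁ B₂, by positivity, le_max_of_le_left hB₁, ?_⟩
  intro q A M κ α β u hq hA hM hα hβ hω hακ hβκ
  obtain ⟨s₁, hs₁⟩ : ∃ s₁, s₁ = 1 / 2 + α + u * I := ⟨_, rfl⟩
  obtain ⟨s₂, hs₂⟩ : ∃ s₂, s₂ = 1 / 2 + β - u * I := ⟨_, rfl⟩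
  have hr1 : |s₁.re - 1 / 2| ≤ 1 / 16 := by
    rw [hs₁, re1, add_sub_cancel_left]
    exact (Complex.abs_re_le_norm α).trans hα
  have hr2 : |s₂.re - 1 / 2| ≤ 1 / 16 := by
    rw [hs₂, re2, add_sub_cancel_left]
    exact (Complex.abs_re_le_norm β).trans hβ
  have hsum : s₁ + s₂ = 1 + (α + β) := by
    rw [hs₁, hs₂]
    ring
  have hω8 : ‖α + β‖ ≤ 1 / 8 := (norm_add_le _ _).trans (by linarith)
  have hU : 1 + |s₁.im| + |s₂.im| ≤ 3 * (1 + |u|) := by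
    rw [hs₁, hs₂]
    exact U_le hα hβ u
  have hU0 : 0 ≤ 1 + |s₁.im| + |s₂.im| := by positivity
  have hu1 : 1 ≤ 1 + |u| := by linarith [abs_nonneg u]
  have hn : 0 < ‖α + β‖ := norm_pos_iff.2 hω
  have hUp : ∀ B : ℝ, 0 ≤ B → B ≤ max B₁ B₂ →
      (1 + |s₁.im| + |s₂.im|) ^ B ≤ 3 ^ B * (1 + |u|) ^ max B₁ B₂ := by
    intro B hB hBm
    calc (1 + |s₁.im| + |s₂.im|) ^ B ≤ (3 * (1 + |u|)) ^ B := Real.rpow_le_rpow hU0 hU hB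
      _ = 3 ^ B * (1 + |u|) ^ B := Real.mul_rpow (by norm_num) (by linarith)
      _ ≤ 3 ^ B * (1 + |u|) ^ max B₁ B₂ :=
        mul_le_mul_of_nonneg_left (Real.rpow_le_rpow_of_exponent_le hu1 hBm) (by positivity)
  have hU1 := hUp B₁ hB₁ (le_max_left _ _)
  have hU2 := hUp B₂ hB₂ (le_max_right _ _)
  obtain ⟨W, hW⟩ : ∃ W, W = (1 + |u|) ^ max B₁ B₂ := ⟨_, rfl⟩
  have hW0 : 0 < W := by rw [hW]; positivity
  rw [← hW] at hU1 hU2 ⊢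
  obtain ⟨a, ha⟩ : ∃ a, a = (A ^ 2 / M ^ 2) ^ (-(1 / 8) : ℝ) / ‖α + β‖ := ⟨_, rfl⟩
  obtain ⟨b, hb⟩ : ∃ b, b = (A ^ 2 * M ^ 2) ^ (1 / 4 : ℝ) * (q : ℝ) ^ (-(11 / 8) : ℝ) := ⟨_, rfl⟩
  have hM0 : 0 < M := by linarith
  have ha0 : 0 ≤ a := by rw [ha]; positivity
  have hb0 : 0 ≤ b := by rw [hb]; positivity
  rw [← ha, ← hb]
  -- one pair
  have hterm : ∀ S ∈ DM K M, ∀ T ∈ DM K M,
      ‖Sg (qi K q) s₁ s₂ (Ys A S T) - 1 / (α + β) * (E (1 + (α + β)) -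
        (rho K : ℂ) * Gq s₁ s₂ (-((α + β) / 2)) * cexp ((α + β) ^ 2 / 2) *
          ((Ys A S T : ℝ) : ℂ) ^ (-((α + β) / 2)))‖ ≤
      (C₁ * 3 ^ B₁ + C₂ * 3 ^ B₂) * W * (a + b) := by
    intro S hS T hT
    have hY := Ys_pos (K := K) hA S T
    obtain ⟨hY1, hY2⟩ := Ys_bd hA hM hS hT
    have k1 := h1 s₁ s₂ (α + β) (Ys A S T) hr1 hr2 hsum hω hω8 hY
    have k2 := h2 q s₁ s₂ (Ys A S T) hq hr1 hr2 hY
    have k3 : (Ys A S T) ^ (-(1 / 8) : ℝ) / ‖α + β‖ ≤ a := by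
      rw [ha]
      exact div_le_div_of_nonneg_right
        (Real.rpow_le_rpow_of_nonpos (by positivity) hY1 (by norm_num)) hn.le
    have k4 : (Ys A S T) ^ (1 / 4 : ℝ) * (q : ℝ) ^ (-(11 / 8) : ℝ) ≤ b := by
      rw [hb]
      exact mul_le_mul_of_nonneg_right (Real.rpow_le_rpow hY.le hY2 (by norm_num))
        (by positivity)
    have k5 : C₁ * (1 + |s₁.im| + |s₂.im|) ^ B₁ * (Ys A S T) ^ (-(1 / 8) : ℝ) / ‖α + β‖ ≤
        C₁ * 3 ^ B₁ * W * a := by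
      rw [mul_div_assoc]
      calc C₁ * (1 + |s₁.im| + |s₂.im|) ^ B₁ * ((Ys A S T) ^ (-(1 / 8) : ℝ) / ‖α + β‖) ≤
          C₁ * (3 ^ B₁ * W) * a :=
            mul_le_mul (mul_le_mul_of_nonneg_left hU1 hC₁.le) k3 (by positivity) (by positivity)
        _ = C₁ * 3 ^ B₁ * W * a := by ring
    have k6 : C₂ * (1 + |s₁.im| + |s₂.im|) ^ B₂ * (Ys A S T) ^ (1 / 4 : ℝ) *
        (q : ℝ) ^ (-(11 / 8) : ℝ) ≤ C₂ * 3 ^ B₂ * W * b := by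
      rw [mul_assoc (C₂ * _)]
      calc C₂ * (1 + |s₁.im| + |s₂.im|) ^ B₂ *
            ((Ys A S T) ^ (1 / 4 : ℝ) * (q : ℝ) ^ (-(11 / 8) : ℝ)) ≤
          C₂ * (3 ^ B₂ * W) * b :=
            mul_le_mul (mul_le_mul_of_nonneg_left hU2 hC₂.le) k4 (by positivity) (by positivity)
        _ = C₂ * 3 ^ B₂ * W * b := by ring
    have e : Sg (qi K q) s₁ s₂ (Ys A S T) - 1 / (α + β) * (E (1 + (α + β)) -
        (rho K : ℂ) * Gq s₁ s₂ (-((α + β) / 2)) * cexp ((α + β) ^ 2 / 2) *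
          ((Ys A S T : ℝ) : ℂ) ^ (-((α + β) / 2))) =
        (Sg (qi K q) s₁ s₂ (Ys A S T) - Sg (K := K) ⊤ s₁ s₂ (Ys A S T)) +
        (Sg (K := K) ⊤ s₁ s₂ (Ys A S T) - 1 / (α + β) * (E (1 + (α + β)) -
        (rho K : ℂ) * Gq s₁ s₂ (-((α + β) / 2)) * cexp ((α + β) ^ 2 / 2) *
          ((Ys A S T : ℝ) : ℂ) ^ (-((α + β) / 2)))) := by ring
    rw [e]
    refine (norm_add_le _ _).trans ?_
    have k7 : C₁ * 3 ^ B₁ * W * a + C₂ * 3 ^ B₂ * W * b ≤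
        (C₁ * 3 ^ B₁ + C₂ * 3 ^ B₂) * W * (a + b) := by
      have p1 : 0 ≤ C₁ * 3 ^ B₁ * W * b := by positivity
      have p2 : 0 ≤ C₂ * 3 ^ B₂ * W * a := by positivity
      have e2 : (C₁ * 3 ^ B₁ + C₂ * 3 ^ B₂) * W * (a + b) =
        C₁ * 3 ^ B₁ * W * a + C₂ * 3 ^ B₂ * W * b + C₁ * 3 ^ B₁ * W * b +
          C₂ * 3 ^ B₂ * W * a := by ring
      linarith
    linarith
  -- the sum
  have e1 : Dg (qi K q) (A ^ 2) M s₁ s₂ (cu K M u) (cu K M (-u)) ⊤ ⊤ -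
        1 / (α + β) * (E (1 + (α + β)) * Sd K M α β -
          (rho K : ℂ) * Gq s₁ s₂ (-((α + β) / 2)) * cexp ((α + β) ^ 2 / 2) * Rr K M A α β) =
      ∑ S ∈ DM K M, ∑ T ∈ DM K M, Wc M α β S T *
        (Sg (qi K q) s₁ s₂ (Ys A S T) - 1 / (α + β) * (E (1 + (α + β)) -
        (rho K : ℂ) * Gq s₁ s₂ (-((α + β) / 2)) * cexp ((α + β) ^ 2 / 2) *
          ((Ys A S T : ℝ) : ℂ) ^ (-((α + β) / 2)))) := by
    have e2 : Dg (qi K q) (A ^ 2) M s₁ s₂ (cu K M u) (cu K M (-u)) ⊤ ⊤ =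
        ∑ S ∈ DM K M, ∑ T ∈ DM K M, Wc M α β S T * Sg (qi K q) s₁ s₂ (Ys A S T) := by
      rw [hs₁, hs₂]
      exact Dg_eq _ _ _ _ _ _
    rw [e2, Sd_eq]
    unfold Rr
    have e3 : ∀ S T, Wc M α β S T * (Sg (qi K q) s₁ s₂ (Ys A S T) -
        1 / (α + β) * (E (1 + (α + β)) -
        (rho K : ℂ) * Gq s₁ s₂ (-((α + β) / 2)) * cexp ((α + β) ^ 2 / 2) *
          ((Ys A S T : ℝ) : ℂ) ^ (-((α + β) / 2)))) =
        Wc (K := K) M α β S T * Sg (qi K q) s₁ s₂ (Ys A S T) -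
        (1 / (α + β) * E (1 + (α + β)) * Wc M α β S T -
          1 / (α + β) * ((rho K : ℂ) * Gq s₁ s₂ (-((α + β) / 2)) * cexp ((α + β) ^ 2 / 2)) *
          (Wc M α β S T * ((Ys A S T : ℝ) : ℂ) ^ (-((α + β) / 2)))) := by
      intro S T
      ring
    simp only [e3, Finset.sum_sub_distrib, ← Finset.mul_sum]
    ring
  rw [← hs₁, ← hs₂, e1]
  refine (norm_sum_le _ _).trans ((Finset.sum_le_sum fun S _ => norm_sum_le _ _).trans ?_)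
  have hV0 : 0 ≤ (C₁ * 3 ^ B₁ + C₂ * 3 ^ B₂) * W * (a + b) := by positivity
  classical
  calc ∑ S ∈ DM K M, ∑ T ∈ DM K M, ‖Wc M α β S T *
        (Sg (qi K q) s₁ s₂ (Ys A S T) - 1 / (α + β) * (E (1 + (α + β)) -
        (rho K : ℂ) * Gq s₁ s₂ (-((α + β) / 2)) * cexp ((α + β) ^ 2 / 2) *
          ((Ys A S T : ℝ) : ℂ) ^ (-((α + β) / 2))))‖ ≤
      ∑ S ∈ DM K M, ∑ T ∈ DM K M, (Real.exp (4 * κ) *
        ((C₁ * 3 ^ B₁ + C₂ * 3 ^ B₂) * W * (a + b))) *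
          (nS np (S ∩ T) / (nS np S * nS np T)) := by
        refine Finset.sum_le_sum fun S hS => Finset.sum_le_sum fun T hT => ?_
        rw [norm_mul]
        have k1 := Wc_le hM hακ hβκ hS hT
        have k2 := hterm S hS T hT
        have k3 := mul_le_mul k1 k2 (norm_nonneg _) ((norm_nonneg _).trans k1)
        refine k3.trans (le_of_eq ?_)
        ring
    _ = (Real.exp (4 * κ) * ((C₁ * 3 ^ B₁ + C₂ * 3 ^ B₂) * W * (a + b))) *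
        ∑ S ∈ DM K M, ∑ T ∈ DM K M, (nS np (S ∩ T) / (nS np S * nS np T)) := by
        simp only [Finset.mul_sum]
    _ ≤ (Real.exp (4 * κ) * ((C₁ * 3 ^ B₁ + C₂ * 3 ^ B₂) * W * (a + b))) *
        GS np (PM K M) M ^ 3 := by
        refine mul_le_mul_of_nonneg_left ?_ (by positivity)
        exact sum_W (K := K) hM
    _ = _ := by ring

end Pool.Agent.H21.CRZ
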